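import Mathlib
import Pool.Agent.Results.MP_5c9c6a_an.Counter

namespace Pool.Agent.Results.MP_d7bb9e_an.Counter

open Set Pool.Agent.Results.MP_5c9c6a_an.Counter

/-- The hypotheses (H), with `s = scl(f)`. -/
def H {n : ℕ} (f : E n → ℝ) (s : ℝ) : Prop :=
  ContDiff ℝ 2 f ∧ (∀ p, gradient f p = 0 → IsUnit (Hess f p)) ∧ ¬ ConvexOn ℝ univ f ∧
  (Lev f).Nonempty ∧ IsGLB (Lev f) s ∧ s ∈ range f ∧ (∀ x, f x = s → gradient f x ≠ 0) ∧
  {x | s < f x} ⊆ HessPos f

theorem result : ∃ (f : E 2 → ℝ) (s : ℝ), H f s ∧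
    {x | gradient f x = 0}.encard < ⨆ y, (gradient f ⁻¹' {y}).encard := by
  have hs : F !₂[0, 1] = 33 / 4 := by simp [F]; norm_num
  have hL : (33 / 4 : ℝ) ∈ Lev F :=
    ⟨(iInf_le _ !₂[0, 1]).trans (by rw [hs]), fun r hr => conv hr⟩
  refine ⟨F, 33 / 4, ⟨by unfold F; fun_prop, fun p hp => ?_, fun h => nconv (q := 0) (by norm_num)
    ((convexOn_const 0 convex_univ).sup h), ⟨_, hL⟩, ⟨fun q hq => ?_, fun q hq => hq hL⟩, ⟨_, hs⟩,
    fun x hx h => ?_, fun x hx => pos (big hx).le (Or.inl (big hx))⟩, ?_⟩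
  · obtain ⟨a, b⟩ := crit hp
    exact (pos (by rw [a, b]; norm_num) (Or.inl (by rw [a, b]; norm_num))).isUnit
  · by_contra hcon
    exact nconv (not_le.1 hcon) (hq.2 q le_rfl)
  · obtain ⟨a, b⟩ := crit h
    rw [F, a, b] at hx
    norm_num at hx
  · refine lt_of_le_of_lt (encard_le_one_iff.2 fun a b ha hb => ?_)
      (lt_of_lt_of_le ?_ (le_iSup _ (gradient F !₂[1, 0])))
    · ext i
      fin_cases i
      · exact (crit ha).1.trans (crit hb).1.symm
      · exact (crit ha).2.trans (crit hb).2.symm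
    · refine one_lt_encard_iff.2 ⟨!₂[1, 0], !₂[-1, 0], rfl, ?_, fun h => ?_⟩
      · have : fderiv ℝ F !₂[-1, 0] = fderiv ℝ F !₂[1, 0] := by
          ext v
          simp [dF]
        simp only [mem_preimage, mem_singleton_iff, gradient, this]
      · have := congrArg (fun x : E 2 => x 0) h
        simp at this
        norm_num at this

end Pool.Agent.Results.MP_d7bb9e_an.Counter
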